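import Mathlib

/-!
# An iterated function system with a Dirichlet-type improvement at every point
-/

namespace Pool.Agent.Results.MP_521650_an.DirichletImprovement

open Filter Topology

/-- The composition `φ_{a_1} ∘ ⋯ ∘ φ_{a_n}` along a word. -/
def wordMap {l : ℕ} (φ : Fin l → ℝ → ℝ) : List (Fin l) → ℝ → ℝ
  | [], x => x
  | i :: a, x => φ i (wordMap φ a x)

/-- `φ` is an iterated function system of at least two injective contractions of the line whose
attractor is `X`, and `X` has more than one point. -/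
structure IsIFS {l : ℕ} (φ : Fin l → ℝ → ℝ) (X : Set ℝ) : Prop where
  two_le : 2 ≤ l
  inj : ∀ i, Function.Injective (φ i)
  contr : ∀ i, ∃ K : NNReal, K < 1 ∧ LipschitzWith K (φ i)
  compact : IsCompact X
  nonempty : X.Nonempty
  self : X = ⋃ i, φ i '' X
  nontrivial : X.Nontrivial

/-- The set `W_s(z)`. -/
def W {l : ℕ} (φ : Fin l → ℝ → ℝ) (X : Set ℝ) (s z : ℝ) : Set ℝ :=
  {x | {a : List (Fin l) | |x - wordMap φ a z| ≤ (Metric.diam (wordMap φ a '' X)) ^ s}.Infinite}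

/-! ### The system -/

/-- The five maps. -/
noncomputable def F (i : Fin 5) (x : ℝ) : ℝ :=
  if i = 0 then x / 2 else if i = 1 then (x + 1) / 2 else if i = 2 then (x + √2) / 2
  else if i = 3 then (x + (1 + √2)) / 2 else (1 + √2) - x / 2

lemma F0 (x : ℝ) : F 0 x = x / 2 := by simp [F]
lemma F1 (x : ℝ) : F 1 x = (x + 1) / 2 := by simp [F]
lemma F2 (x : ℝ) : F 2 x = (x + √2) / 2 := by simp [F]
lemma F3 (x : ℝ) : F 3 x = (x + (1 + √2)) / 2 := by simp [F]
lemma F4 (x : ℝ) : F 4 x = (1 + √2) - x / 2 := by simp [F]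

lemma dist_F (i : Fin 5) (x y : ℝ) : dist (F i x) (F i y) = dist x y / 2 := by
  have h2 : |x - y| / 2 = |(x - y) / 2| := by
    rw [abs_div, abs_of_pos (by norm_num : (0 : ℝ) < 2)]
  rw [Real.dist_eq, Real.dist_eq, h2]
  fin_cases i
  · show |F 0 x - F 0 y| = _
    rw [F0, F0]; congr 1; ring
  · show |F 1 x - F 1 y| = _
    rw [F1, F1]; congr 1; ring
  · show |F 2 x - F 2 y| = _
    rw [F2, F2]; congr 1; ring
  · show |F 3 x - F 3 y| = _
    rw [F3, F3]; congr 1; ring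
  · show |F 4 x - F 4 y| = _
    rw [F4, F4, ← abs_neg]; congr 1; ring

/-- The attractor. -/
noncomputable def X : Set ℝ := Set.Icc 0 (1 + √2)

lemma sqrt_two_bounds : 1 < √2 ∧ √2 < 3 / 2 := by
  constructor
  · rw [Real.lt_sqrt (by norm_num)]; norm_num
  · rw [Real.sqrt_lt' (by norm_num)]; norm_num

lemma F_mem (i : Fin 5) {x : ℝ} (hx : x ∈ X) : F i x ∈ X := by
  obtain ⟨h1, h2⟩ := sqrt_two_bounds
  obtain ⟨hx1, hx2⟩ := hx
  fin_cases i
  · show F 0 x ∈ X
    rw [F0]; constructor <;> linarith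
  · show F 1 x ∈ X
    rw [F1]; constructor <;> linarith
  · show F 2 x ∈ X
    rw [F2]; constructor <;> linarith
  · show F 3 x ∈ X
    rw [F3]; constructor <;> linarith
  · show F 4 x ∈ X
    rw [F4]; constructor <;> linarith

lemma isIFS_F : IsIFS F X where
  two_le := by norm_num
  inj := by
    intro i x y hxy
    have h := dist_F i x y
    rw [hxy, dist_self] at h
    exact dist_eq_zero.mp (by linarith)
  contr := by
    intro i
    refine ⟨1 / 2, by
      rw [← NNReal.coe_lt_coe]; norm_num, LipschitzWith.of_dist_le_mul fun x y => ?_⟩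
    rw [dist_F]
    push_cast
    linarith
  compact := isCompact_Icc
  nonempty := ⟨0, le_rfl, by positivity⟩
  self := by
    obtain ⟨h1, h2⟩ := sqrt_two_bounds
    apply Set.Subset.antisymm
    · intro x hx
      obtain ⟨hx1, hx2⟩ := hx
      rw [Set.mem_iUnion]
      rcases le_total x ((1 + √2) / 2) with h | h
      · exact ⟨0, 2 * x, ⟨by linarith, by linarith⟩, by rw [F0]; ring⟩
      · exact ⟨3, 2 * x - (1 + √2), ⟨by linarith, by linarith⟩, by rw [F3]; ring⟩
    · intro x hx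
      rw [Set.mem_iUnion] at hx
      obtain ⟨i, y, hy, rfl⟩ := hx
      exact F_mem i hy
  nontrivial := ⟨0, ⟨le_rfl, by positivity⟩, 1 + √2, ⟨by positivity, le_rfl⟩, by positivity⟩

lemma dist_wordMap (a : List (Fin 5)) (x y : ℝ) :
    dist (wordMap F a x) (wordMap F a y) = dist x y / 2 ^ a.length := by
  induction a with
  | nil => simp [wordMap]
  | cons i a ih =>
    simp only [wordMap, List.length_cons]
    rw [dist_F, ih, pow_succ]
    ring

lemma wordMap_mem (a : List (Fin 5)) {x : ℝ} (hx : x ∈ X) : wordMap F a x ∈ X := by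
  induction a with
  | nil => exact hx
  | cons i a ih => exact F_mem i ih

lemma diam_wordMap (a : List (Fin 5)) :
    Metric.diam (wordMap F a '' X) = (1 + √2) / 2 ^ a.length := by
  have hs : 0 ≤ √2 := Real.sqrt_nonneg 2
  apply le_antisymm
  · apply Metric.diam_le_of_forall_dist_le (by positivity)
    rintro _ ⟨x, hx, rfl⟩ _ ⟨y, hy, rfl⟩
    rw [dist_wordMap]
    apply div_le_div_of_nonneg_right _ (by positivity)
    rw [Real.dist_eq, abs_le]
    obtain ⟨hx1, hx2⟩ := hx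
    obtain ⟨hy1, hy2⟩ := hy
    constructor <;> linarith
  · have hb : Bornology.IsBounded (wordMap F a '' X) := by
      apply (isCompact_Icc (a := (0 : ℝ)) (b := 1 + √2)).isBounded.subset
      rintro _ ⟨x, hx, rfl⟩
      exact wordMap_mem a hx
    have h := Metric.dist_le_diam_of_mem hb
      (Set.mem_image_of_mem (wordMap F a) (show (1 + √2) ∈ X from ⟨by positivity, le_rfl⟩))
      (Set.mem_image_of_mem (wordMap F a) (show (0 : ℝ) ∈ X from ⟨le_rfl, by positivity⟩))
    rw [dist_wordMap, Real.dist_eq, sub_zero, abs_of_nonneg (by positivity)] at h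
    exact h

/-- All points `(p + √2 q) / 2 ^ n` with `p, q < 2 ^ n` are images of `0` under words of
length `n`. -/
lemma exists_word (n : ℕ) : ∀ p q : ℕ, p < 2 ^ n → q < 2 ^ n →
    ∃ a : List (Fin 5), a.length = n ∧ wordMap F a 0 = (p + √2 * q) / 2 ^ n := by
  induction n with
  | zero =>
    intro p q hp hq
    refine ⟨[], rfl, ?_⟩
    have hp' : p = 0 := by simpa using hp
    have hq' : q = 0 := by simpa using hq
    subst hp' hq'
    simp [wordMap]
  | succ n ih =>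
    intro p q hp hq
    have h2 : (2 : ℝ) ^ n ≠ 0 := by positivity
    rcases lt_or_ge p (2 ^ n) with hp1 | hp1 <;> rcases lt_or_ge q (2 ^ n) with hq1 | hq1
    · obtain ⟨a, ha, hv⟩ := ih p q hp1 hq1
      refine ⟨0 :: a, by simp [ha], ?_⟩
      rw [wordMap, hv, F0, pow_succ]
      field_simp
    · obtain ⟨r, rfl⟩ := Nat.exists_eq_add_of_le hq1
      obtain ⟨a, ha, hv⟩ := ih p r hp1 (by rw [pow_succ] at hq; omega)
      refine ⟨2 :: a, by simp [ha], ?_⟩
      rw [wordMap, hv, F2, pow_succ]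
      push_cast
      field_simp
      ring
    · obtain ⟨r, rfl⟩ := Nat.exists_eq_add_of_le hp1
      obtain ⟨a, ha, hv⟩ := ih r q (by rw [pow_succ] at hp; omega) hq1
      refine ⟨1 :: a, by simp [ha], ?_⟩
      rw [wordMap, hv, F1, pow_succ]
      push_cast
      field_simp
      ring
    · obtain ⟨r, rfl⟩ := Nat.exists_eq_add_of_le hp1
      obtain ⟨t, rfl⟩ := Nat.exists_eq_add_of_le hq1
      obtain ⟨a, ha, hv⟩ := ih r t (by rw [pow_succ] at hp; omega)
        (by rw [pow_succ] at hq; omega)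
      refine ⟨3 :: a, by simp [ha], ?_⟩
      rw [wordMap, hv, F3, pow_succ]
      push_cast
      field_simp
      ring

/-! ### Approximation -/

/-- Pell approximations of `√2`. -/
lemma exists_pell (M : ℕ) : ∃ P Q : ℤ, 0 < P ∧ (M : ℤ) + 1 ≤ Q ∧
    (P ^ 2 - 2 * Q ^ 2 = 1 ∨ P ^ 2 - 2 * Q ^ 2 = -1) := by
  induction M with
  | zero => exact ⟨1, 1, by norm_num, by norm_num, Or.inr (by norm_num)⟩
  | succ M ih =>
    obtain ⟨P, Q, hP, hQ, h⟩ := ih
    refine ⟨P + 2 * Q, P + Q, by linarith, by push_cast; linarith, ?_⟩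
    rcases h with h | h
    · right; linarith
    · left; linarith

/-- For every real `τ` there are integers `p` and `0 ≤ j < Q` with `|τ - √2 j - p| ≤ 2 / Q`. -/
lemma inhom {P Q : ℤ} (hP : 0 < P) (hQ : 0 < Q)
    (h : P ^ 2 - 2 * Q ^ 2 = 1 ∨ P ^ 2 - 2 * Q ^ 2 = -1) (τ : ℝ) :
    ∃ j p : ℤ, 0 ≤ j ∧ j < Q ∧ |τ - √2 * j - p| ≤ 2 / Q := by
  have hQr : (0 : ℝ) < Q := by exact_mod_cast hQ
  have hPr : (0 : ℝ) < P := by exact_mod_cast hP
  obtain ⟨hs1, _⟩ := sqrt_two_bounds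
  have hs2 : √2 ^ 2 = (2 : ℝ) := Real.sq_sqrt (by norm_num)
  -- |P - √2 Q| ≤ 1 / Q
  have hPQ : |(P : ℝ) / Q - √2| ≤ 1 / Q ^ 2 := by
    have h1 : |((P : ℝ) - √2 * Q) * (P + √2 * Q)| = 1 := by
      have e : ((P : ℝ) - √2 * Q) * (P + √2 * Q) = ((P ^ 2 - 2 * Q ^ 2 : ℤ) : ℝ) := by
        push_cast
        linear_combination (-(Q : ℝ) ^ 2) * hs2
      rw [e]
      rcases h with h | h <;> rw [h] <;> norm_num
    rw [abs_mul, abs_of_pos (show (0 : ℝ) < P + √2 * Q by positivity)] at h1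
    have h2 : (Q : ℝ) ≤ P + √2 * Q := by nlinarith
    have h3 : |(P : ℝ) - √2 * Q| * Q ≤ 1 := by
      calc |(P : ℝ) - √2 * Q| * Q ≤ |(P : ℝ) - √2 * Q| * (P + √2 * Q) :=
            mul_le_mul_of_nonneg_left h2 (abs_nonneg _)
        _ = 1 := h1
    have h4 : (P : ℝ) / Q - √2 = (P - √2 * Q) / Q := by field_simp
    rw [h4, abs_div, abs_of_pos hQr, div_le_div_iff₀ hQr (by positivity)]
    nlinarith
  -- the integer m
  set m : ℤ := round (Q * τ) with hm
  have hmτ : |τ - m / Q| ≤ 1 / (2 * Q) := by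
    have h1 := abs_sub_round ((Q : ℝ) * τ)
    have h2 : τ - m / Q = (Q * τ - m) / Q := by field_simp
    rw [h2, abs_div, abs_of_pos hQr, hm, div_le_div_iff₀ hQr (by positivity)]
    nlinarith
  -- Bezout
  obtain ⟨u, v, huv⟩ : ∃ u v : ℤ, u * P + v * Q = 1 := by
    rcases h with h | h
    · exact ⟨P, -(2 * Q), by linarith⟩
    · exact ⟨-P, 2 * Q, by linarith⟩
  set j : ℤ := (m * u) % Q with hj
  set t : ℤ := (m * u) / Q with ht
  have hmu : m * u = j + Q * t := (Int.emod_add_mul_ediv (m * u) Q).symm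
  refine ⟨j, t * P + m * v, Int.emod_nonneg _ hQ.ne', Int.emod_lt_of_pos _ hQ, ?_⟩
  have hj0 : (0 : ℝ) ≤ j := by exact_mod_cast Int.emod_nonneg _ hQ.ne'
  have hjQ : (j : ℝ) ≤ Q := by exact_mod_cast (Int.emod_lt_of_pos (m * u) hQ).le
  have hmeq : (m : ℝ) = j * P + (t * P + m * v) * Q := by
    have : m = j * P + (t * P + m * v) * Q := by
      calc m = m * (u * P + v * Q) := by rw [huv, mul_one]
        _ = (m * u) * P + m * v * Q := by ring
        _ = (j + Q * t) * P + m * v * Q := by rw [hmu]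
        _ = _ := by ring
    exact_mod_cast this
  have e : τ - √2 * j - ((t * P + m * v : ℤ) : ℝ) = (τ - m / Q) + j * ((P : ℝ) / Q - √2) := by
    push_cast
    have : (m : ℝ) / Q = j * P / Q + (t * P + m * v) := by
      rw [div_add' _ _ _ hQr.ne', div_left_inj' hQr.ne']
      linarith
    rw [this]
    ring
  rw [e]
  calc |(τ - m / Q) + j * ((P : ℝ) / Q - √2)| ≤ |τ - m / Q| + |j * ((P : ℝ) / Q - √2)| :=
        abs_add_le _ _
    _ ≤ 1 / (2 * Q) + Q * (1 / Q ^ 2) := by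
        rw [abs_mul, abs_of_nonneg hj0]
        gcongr
    _ ≤ 2 / Q := by
        have : (Q : ℝ) * (1 / Q ^ 2) = 1 / Q := by field_simp
        rw [this]
        have h3 : (1 : ℝ) / (2 * Q) ≤ 1 / Q := by
          apply one_div_le_one_div_of_le hQr
          linarith
        have h4 : (2 : ℝ) / Q = 1 / Q + 1 / Q := by ring
        linarith

/-- Interior points of `X` are approximated with error `C / 4 ^ n` for infinitely many `n`. -/
lemma approx {x : ℝ} (h0 : 0 < x) (h1 : x < 1 + √2) : ∃ C : ℝ, 0 < C ∧ ∀ N : ℕ, ∃ n p q : ℕ,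
    N ≤ n ∧ p < 2 ^ n ∧ q < 2 ^ n ∧ |x - (p + √2 * q) / 2 ^ n| ≤ C / 4 ^ n := by
  obtain ⟨hs1, hs2⟩ := sqrt_two_bounds
  set y := x / (1 + √2) with hy
  have hy0 : 0 < y := by positivity
  have hy1 : y < 1 := by rw [hy, div_lt_one (by positivity)]; exact h1
  have hxy : x = y + √2 * y := by rw [hy]; field_simp
  set κ := min y (1 - y) with hκ
  have hκ0 : 0 < κ := lt_min hy0 (by linarith)
  have hκy : κ ≤ y := min_le_left _ _
  have hκy' : κ ≤ 1 - y := min_le_right _ _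
  refine ⟨16 / κ, by positivity, fun N => ?_⟩
  obtain ⟨P, Q, hP, hQ, hPQ⟩ := exists_pell (2 ^ N + 2)
  have h2N : (0 : ℤ) < 2 ^ N := by positivity
  push_cast at hQ
  have hQ0 : 0 < Q := by linarith
  have hQr : (0 : ℝ) < Q := by exact_mod_cast hQ0
  have hQ3 : (3 : ℝ) ≤ Q := by
    have : (3 : ℤ) ≤ Q := by linarith
    exact_mod_cast this
  have hA : (1 : ℝ) ≤ 4 * Q / κ := by
    rw [le_div_iff₀ hκ0]
    nlinarith
  obtain ⟨n₀, hn1, hn2⟩ := exists_nat_pow_near hA (by norm_num : (1 : ℝ) < 2)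
  set n := n₀ + 1 with hn
  have hn3 : (2 : ℝ) ^ n ≤ 8 * Q / κ := by
    rw [hn, pow_succ]
    calc (2 : ℝ) ^ n₀ * 2 ≤ 4 * Q / κ * 2 := by linarith
      _ = 8 * Q / κ := by ring
  have hn4 : 4 * (Q : ℝ) < 2 ^ n * κ := by
    rwa [div_lt_iff₀ hκ0] at hn2
  have hn5 : (2 : ℝ) ^ n * κ ≤ 8 * Q := by
    rwa [le_div_iff₀ hκ0] at hn3
  have hpow : (0 : ℝ) < 2 ^ n := by positivity
  set L : ℝ := 2 ^ n * (y - κ / 4) with hL
  have hL0 : 0 ≤ L := by
    apply mul_nonneg hpow.le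
    linarith
  set q0 : ℕ := ⌈L⌉₊ with hq0
  have hq1 : L ≤ q0 := Nat.le_ceil L
  have hq2 : (q0 : ℝ) < L + 1 := Nat.ceil_lt_add_one hL0
  obtain ⟨j, p, hj0, hjQ, hjp⟩ := inhom hP hQ0 hPQ (2 ^ n * x - √2 * q0)
  obtain ⟨j, rfl⟩ := Int.eq_ofNat_of_zero_le hj0
  have hjr : (j : ℝ) ≤ Q - 1 := by
    have : (j : ℤ) ≤ Q - 1 := by omega
    exact_mod_cast this
  have hjr0 : (0 : ℝ) ≤ j := Nat.cast_nonneg j
  have h2Q : (2 : ℝ) / Q ≤ 1 := by
    rw [div_le_one hQr]
    linarith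
  push_cast at hjp
  obtain ⟨ha, hb⟩ := abs_le.mp (hjp.trans h2Q)
  have hsq : √2 * ((q0 : ℝ) + j) ≤ √2 * (2 ^ n * y) := by
    apply mul_le_mul_of_nonneg_left _ (by linarith)
    rw [hL] at hq2
    nlinarith
  have hsq' : √2 * L ≤ √2 * ((q0 : ℝ) + j) := by
    apply mul_le_mul_of_nonneg_left _ (by linarith)
    linarith
  have hT : 2 ^ n * x = 2 ^ n * y + √2 * (2 ^ n * y) := by
    nth_rewrite 1 [hxy]
    ring
  have hyκ : 2 ^ n * κ ≤ 2 ^ n * y := mul_le_mul_of_nonneg_left hκy hpow.le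
  have hyκ' : 2 ^ n * κ ≤ 2 ^ n * (1 - y) := mul_le_mul_of_nonneg_left hκy' hpow.le
  have hp0 : (0 : ℝ) < p := by nlinarith
  have hs4 : √2 * (2 ^ n * κ) ≤ 3 / 2 * (2 ^ n * κ) :=
    mul_le_mul_of_nonneg_right hs2.le (by positivity)
  have hL' : √2 * L = √2 * (2 ^ n * y) - √2 * (2 ^ n * κ) / 4 := by
    rw [hL]; ring
  have hp1 : (p : ℝ) < 2 ^ n := by
    have : (2 : ℝ) ^ n * (1 - y) = 2 ^ n - 2 ^ n * y := by ring
    nlinarith
  have hp0' : 0 ≤ p := by
    have : (0 : ℤ) < p := by exact_mod_cast hp0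
    exact this.le
  obtain ⟨p, rfl⟩ := Int.eq_ofNat_of_zero_le hp0'
  refine ⟨n, p, q0 + j, ?_, ?_, ?_, ?_⟩
  · have h1 : (2 : ℝ) ^ N < 2 ^ n := by
      have h2 : (2 : ℝ) ^ N + 2 + 1 ≤ Q := by exact_mod_cast hQ
      have h3 : (2 : ℝ) ^ n * κ ≤ 2 ^ n * 1 := by
        apply mul_le_mul_of_nonneg_left _ hpow.le
        linarith
      linarith
    exact (pow_lt_pow_iff_right₀ (by norm_num)).mp h1 |>.le
  · have : (p : ℝ) < 2 ^ n := by exact_mod_cast hp1
    exact_mod_cast this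
  · have h3 : (2 : ℝ) ^ n * (1 - y) = 2 ^ n - 2 ^ n * y := by ring
    have : (q0 : ℝ) + j < 2 ^ n := by
      rw [hL] at hq2
      nlinarith
    exact_mod_cast this
  · have e : x - ((p : ℝ) + √2 * ((q0 + j : ℕ) : ℝ)) / 2 ^ n
        = (2 ^ n * x - √2 * q0 - √2 * j - p) / 2 ^ n := by
      push_cast
      field_simp
      ring
    rw [e, abs_div, abs_of_pos hpow]
    push_cast at hjp
    calc |2 ^ n * x - √2 * ↑q0 - √2 * ↑j - (p : ℝ)| / 2 ^ n ≤ 2 / Q / 2 ^ n :=
          div_le_div_of_nonneg_right hjp hpow.le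
      _ ≤ 16 / κ / 4 ^ n := by
          have h4 : (4 : ℝ) ^ n = 2 ^ n * 2 ^ n := by
            rw [← mul_pow]; norm_num
          have h5 : (0 : ℝ) < Q * 2 ^ n := by positivity
          have h6 : (0 : ℝ) < κ * (2 ^ n * 2 ^ n) := by positivity
          rw [h4, div_div, div_div, div_le_div_iff₀ h5 h6]
          have h7 := mul_le_mul_of_nonneg_left hn5 hpow.le
          linarith

/-- From `C / 4 ^ n` to the power of the diameter. -/
lemma pow_bound {s : ℝ} (C : ℝ) (hs : s < 2) :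
    ∀ᶠ n : ℕ in atTop, C / 4 ^ n ≤ ((1 + √2) / 2 ^ n) ^ s := by
  have h2s : (1 : ℝ) < 2 ^ (2 - s) := Real.one_lt_rpow (by norm_num) (by linarith)
  have h1 : Tendsto (fun n : ℕ => ((2 : ℝ) ^ (2 - s)) ^ n) atTop atTop :=
    tendsto_pow_atTop_atTop_of_one_lt h2s
  set K : ℝ := (1 + √2) ^ s with hK
  have hK0 : 0 < K := Real.rpow_pos_of_pos (by positivity) s
  filter_upwards [h1.eventually_ge_atTop (C / K)] with n hn
  have hpow : (0 : ℝ) < 2 ^ n := by positivity
  rw [Real.div_rpow (by positivity) hpow.le, ← hK]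
  have e1 : ((2 : ℝ) ^ (2 - s)) ^ n = 4 ^ n / ((2 : ℝ) ^ n) ^ s := by
    rw [← Real.rpow_natCast, ← Real.rpow_natCast, ← Real.rpow_natCast, ← Real.rpow_mul (by norm_num),
      ← Real.rpow_mul (by norm_num), eq_div_iff (by positivity), ← Real.rpow_add (by norm_num)]
    have : (4 : ℝ) = 2 ^ (2 : ℝ) := by norm_num
    rw [this, ← Real.rpow_mul (by norm_num)]
    congr 1
    ring
  rw [e1, div_le_div_iff₀ hK0 (by positivity)] at hn
  rw [div_le_div_iff₀ (by positivity) (by positivity)]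
  linarith

lemma infinite_of_lengths {S : Set (List (Fin 5))} (h : ∀ N : ℕ, ∃ a ∈ S, N ≤ a.length) :
    S.Infinite := by
  intro hfin
  obtain ⟨M, hM⟩ := (hfin.image List.length).bddAbove
  obtain ⟨a, ha, hl⟩ := h (M + 1)
  have := hM (Set.mem_image_of_mem _ ha)
  omega

lemma X_subset_W {s : ℝ} (hs : s < 2) : X ⊆ W F X s 0 := by
  intro x hx
  obtain ⟨hx0, hx1⟩ := hx
  apply infinite_of_lengths
  have hd : ∀ a : List (Fin 5), 0 ≤ (Metric.diam (wordMap F a '' X)) ^ s := fun a =>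
    Real.rpow_nonneg Metric.diam_nonneg s
  have hrep : ∀ n, wordMap F (List.replicate n 0) 0 = 0 := by
    intro n
    induction n with
    | zero => rfl
    | succ n ih => rw [List.replicate_succ, wordMap, ih, F0]; simp
  rcases eq_or_lt_of_le hx0 with rfl | hx0
  · intro N
    refine ⟨List.replicate N 0, ?_, by simp⟩
    show |0 - wordMap F (List.replicate N 0) 0| ≤ _
    rw [hrep]
    simpa using hd _
  rcases eq_or_lt_of_le hx1 with rfl | hx1
  · intro N
    refine ⟨4 :: List.replicate N 0, ?_, by simp⟩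
    show |(1 + √2) - wordMap F (4 :: List.replicate N 0) 0| ≤ _
    rw [wordMap, hrep, F4]
    simpa using hd _
  · intro N
    obtain ⟨C, hC, happ⟩ := approx hx0 hx1
    obtain ⟨M, hM⟩ := eventually_atTop.mp (pow_bound C hs)
    obtain ⟨n, p, q, hn, hp, hq, hxn⟩ := happ (max M N)
    obtain ⟨a, ha, hav⟩ := exists_word n p q hp hq
    refine ⟨a, ?_, by rw [ha]; exact (le_max_right _ _).trans hn⟩
    show |x - wordMap F a 0| ≤ _
    rw [hav, diam_wordMap, ha]
    exact hxn.trans (hM n ((le_max_left _ _).trans hn))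

lemma W_subset_X {s : ℝ} (hs : 0 < s) : W F X s 0 ⊆ X := by
  intro x hx
  have hcl : IsClosed X := isClosed_Icc
  rw [← hcl.closure_eq, Metric.mem_closure_iff]
  intro ε hε
  have h0 : (0 : ℝ) ∈ X := ⟨le_rfl, by positivity⟩
  -- diameters tend to zero
  have ht : Tendsto (fun n : ℕ => ((1 + √2) / 2 ^ n : ℝ) ^ s) atTop (𝓝 0) := by
    have h1 : Tendsto (fun n : ℕ => ((1 + √2) / 2 ^ n : ℝ)) atTop (𝓝 0) :=
      tendsto_const_nhds.div_atTop (tendsto_pow_atTop_atTop_of_one_lt (by norm_num))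
    have h2 := h1.rpow_const (p := s) (Or.inr hs.le)
    rwa [Real.zero_rpow hs.ne'] at h2
  obtain ⟨N, hN⟩ := eventually_atTop.mp (ht.eventually (gt_mem_nhds hε))
  have hfin : {a : List (Fin 5) | a.length < N}.Finite := by
    have : {a : List (Fin 5) | a.length < N} ⊆ ⋃ n ∈ Finset.range N, {a | a.length = n} := by
      intro a ha
      simp only [Set.mem_iUnion, Finset.mem_range, Set.mem_ofPred_eq]
      exact ⟨a.length, ha, rfl⟩
    refine Set.Finite.subset ?_ this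
    apply Set.Finite.biUnion (Finset.finite_toSet _)
    intro n _
    exact List.finite_length_eq (Fin 5) n
  obtain ⟨a, ha, hl⟩ := (Set.Infinite.sdiff hx hfin).nonempty
  have hl' : N ≤ a.length := by
    by_contra h
    exact hl (by simpa using h)
  refine ⟨wordMap F a 0, wordMap_mem a h0, ?_⟩
  have h3 : |x - wordMap F a 0| ≤ (Metric.diam (wordMap F a '' X)) ^ s := ha
  rw [diam_wordMap] at h3
  rw [Real.dist_eq]
  exact lt_of_le_of_lt h3 (hN _ hl')

/-- **Main theorem.** There are an iterated function system of injective contractions of the line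
with attractor `X`, and a point `z ∈ X`, such that `W_s(z) = X` for every exponent `0 < s < 2`; in
particular this holds with an exponent `s > 1`. -/
theorem result :
    ∃ (l : ℕ) (φ : Fin l → ℝ → ℝ) (X : Set ℝ) (z : ℝ), IsIFS φ X ∧ z ∈ X ∧
      ∀ s : ℝ, 0 < s → s < 2 → W φ X s z = X :=
  ⟨5, F, X, 0, isIFS_F, ⟨le_rfl, by positivity⟩, fun _ hs hs2 =>
    Set.Subset.antisymm (W_subset_X hs) (X_subset_W hs2)⟩

end Pool.Agent.Results.MP_521650_an.DirichletImprovement
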